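import Pool.Agent.PFJ.StmtsG
import Pool.Agent.Helper15_PFB.EIG

/-!
# PFJ squad, row EI2: eigenrays in a strictly convex factor
-/

set_option autoImplicit false

open Matrix Filter Topology

namespace Pool.Agent.PFJ.H76e

open Pool.Agent.PFS

theorem ei2 : Ei2Stmt := by
  intro n C Γ h U hS σ hσ x0 x1 lam mu hx0U hx1U hx0C hx1C hind hlam hlm h0 h1
  have hP : PCone C := h.toPCone
  have hmu : 0 < mu := hlam.trans hlm
  have hx0n : x0 ≠ 0 := by
    intro hz
    have h2 := (hind 1 0 (by rw [hz]; simp)).1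
    exact one_ne_zero h2
  have hx1n : x1 ≠ 0 := by
    intro hz
    have h2 := (hind 0 1 (by rw [hz]; simp)).2
    exact one_ne_zero h2
  have inv_eig : ∀ (v : V n) (r : ℝ), r ≠ 0 → act σ v = r • v → act σ⁻¹ v = r⁻¹ • v := by
    intro v r hr hv
    have h2 : act σ⁻¹ (act σ v) = act σ⁻¹ (r • v) := by rw [hv]
    rw [CC.act_inv_act, CC.act_smul] at h2
    rw [h2, smul_smul, inv_mul_cancel₀ hr, one_smul, ← h2]
  refine ⟨?_, ?_, ?_⟩
  · intro e heU hec hene κ hκ
    have hκ0 : κ ≠ 0 := by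
      intro hz
      rw [hz, zero_smul, ← CC.act_zero σ] at hκ
      exact hene (CC.act_injective σ hκ)
    have hκp : 0 < κ := by
      by_contra hc
      push Not at hc
      have h2 : κ • e ∈ closure C := by rw [← hκ]; exact h.act_cl hσ hec
      have h3 : -(κ • e) ∈ closure C := by
        rw [← neg_smul]
        exact hP.cl_smul hec (by linarith)
      rcases smul_eq_zero.mp (hP.salient _ h2 h3) with h4 | h4
      · exact hκ0 h4
      · exact hene h4
    by_cases hd0 : Ind2 e x0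
    swap
    · exact Or.inl (PFB.H15.dep_pos hP hec hx0C hene hx0n
        (fun hl => hd0 (LinearIndependent.pair_iff.mp hl)))
    by_cases hd1 : Ind2 e x1
    swap
    · exact Or.inr (PFB.H15.dep_pos hP hec hx1C hene hx1n
        (fun hl => hd1 (LinearIndependent.pair_iff.mp hl)))
    exfalso
    obtain ⟨M1, -, hA⟩ := (hS e heU x1 hx1U hec hx1C hd1).2.2 x0 hx0U
    obtain ⟨M2, -, hB⟩ := (hS e heU x0 hx0U hec hx0C hd0).2.2 x1 hx1U
    have hκl : κ ≤ lam := by
      by_contra hc
      push Not at hc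
      have h5 : -x0 ∈ closure C := by
        refine PFB.H15.lim_neg h (Γ.inv_mem hσ) (s := lam) (r1 := lam / κ) (r2 := lam / mu)
          (M := M1) hlam (e := e) (f := x1) ?_ ?_ ?_ (by positivity) ?_ (by positivity) ?_ hA
        · rw [inv_eig _ _ hlam.ne' h0, smul_smul, mul_inv_cancel₀ hlam.ne', one_smul]
        · rw [inv_eig _ _ hκp.ne' hκ, smul_smul, div_eq_mul_inv]
        · rw [inv_eig _ _ hmu.ne' h1, smul_smul, div_eq_mul_inv]
        · rwa [div_lt_one hκp]
        · rwa [div_lt_one hmu]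
      exact hx0n (hP.salient _ hx0C h5)
    have h6 : -x1 ∈ closure C := by
      refine PFB.H15.lim_neg h hσ (s := mu⁻¹) (r1 := κ / mu) (r2 := lam / mu) (M := M2)
        (inv_pos.mpr hmu) (e := e) (f := x0) ?_ ?_ ?_ (by positivity) ?_ (by positivity) ?_ hB
      · rw [h1, smul_smul, inv_mul_cancel₀ hmu.ne', one_smul]
      · rw [hκ, smul_smul, div_eq_inv_mul]
      · rw [h0, smul_smul, div_eq_inv_mul]
      · rw [div_lt_one hmu]; linarith
      · rwa [div_lt_one hmu]
    exact hx1n (hP.salient _ hx1C h6)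
  · intro hu
    obtain ⟨M, -, hM⟩ := hu.2.2 x1 hx1U
    have h6 : -x1 ∈ closure C := by
      refine PFB.H15.lim_neg h hσ (s := mu⁻¹) (r1 := lam / mu) (r2 := 0) (M := M)
        (inv_pos.mpr hmu) (v := x1) (e := x0) (f := 0) ?_ ?_ ?_ (by positivity) ?_ le_rfl
        zero_lt_one ?_
      · rw [h1, smul_smul, inv_mul_cancel₀ hmu.ne', one_smul]
      · rw [h0, smul_smul, div_eq_inv_mul]
      · rw [CC.act_zero, smul_zero, smul_zero]
      · rwa [div_lt_one hmu]
      · rwa [add_zero]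
    exact hx1n (hP.salient _ hx1C h6)
  · intro hu
    obtain ⟨M, -, hM⟩ := hu.2.2 x0 hx0U
    have h6 : -x0 ∈ closure C := by
      refine PFB.H15.lim_neg h (Γ.inv_mem hσ) (s := lam) (r1 := lam / mu) (r2 := 0) (M := M)
        hlam (v := x0) (e := x1) (f := 0) ?_ ?_ ?_ (by positivity) ?_ le_rfl zero_lt_one ?_
      · rw [inv_eig _ _ hlam.ne' h0, smul_smul, mul_inv_cancel₀ hlam.ne', one_smul]
      · rw [inv_eig _ _ hmu.ne' h1, smul_smul, div_eq_mul_inv]
      · rw [CC.act_zero, smul_zero, smul_zero]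
      · rwa [div_lt_one hmu]
      · rwa [add_zero]
    exact hx0n (hP.salient _ hx0C h6)

end Pool.Agent.PFJ.H76e
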