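import Pool.Agent.PFJ.Stmts

/-!
# PFB squad, row UNF (elementary facts on order units)
-/

set_option autoImplicit false

open Matrix Filter Topology

namespace Pool.Agent.PFJ.H76

open Pool.Agent.PFS

variable {n : ℕ} {C : Set (V n)} {L : Submodule ℝ (V n)}

theorem unt_smul (h : PCone C) {y : V n} (hy : Unt C L y) {t : ℝ} (ht : 0 < t) :
    Unt C L (t • y) := by
  obtain ⟨hyL, hyC, hyM⟩ := hy
  refine ⟨L.smul_mem t hyL, h.cl_smul hyC ht.le, fun z hz => ?_⟩
  obtain ⟨M, hM, h2⟩ := hyM z hz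
  refine ⟨M / t, div_pos hM ht, ?_⟩
  have h3 : (M / t) • (t • y) = M • y := by rw [smul_smul, div_mul_cancel₀ _ ht.ne']
  rw [h3]; exact h2

theorem unt_of_le (h : PCone C) {y z : V n} (hy : Unt C L y) (hz : z ∈ L)
    (hzy : z - y ∈ closure C) : Unt C L z := by
  obtain ⟨hyL, hyC, hyM⟩ := hy
  refine ⟨hz, h.cl_of_le hyC hzy, fun x hx => ?_⟩
  obtain ⟨M, hM, h2⟩ := hyM x hx
  refine ⟨M, hM, ?_⟩
  have h3 := h.cl_add h2 (h.cl_smul hzy hM.le)
  have h4 : M • y - x + M • (z - y) = M • z - x := by module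
  rwa [h4] at h3

theorem unf : UnfStmt := by
  intro n C h L y hy
  have hface : ∀ z ∈ L, ∃ t : ℝ, 0 < t ∧ y + t • z ∈ Face C y := by
    intro z hz
    obtain ⟨M₁, hM₁, h1⟩ := hy.2.2 z hz
    obtain ⟨M₂, hM₂, h2⟩ := hy.2.2 (-z) (L.neg_mem hz)
    refine ⟨1 / (2 * M₂), by positivity, ?_⟩
    set t : ℝ := 1 / (2 * M₂) with ht
    have htp : 0 < t := by positivity
    have htM : t * M₂ = 1 / 2 := by rw [ht]; field_simp
    have hden : 0 < 1 + t * M₁ := by positivity
    set ε : ℝ := min (1 / 2) (1 / (1 + t * M₁)) with hε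
    have hεp : 0 < ε := lt_min (by norm_num) (by positivity)
    have hε1 : ε ≤ 1 / 2 := min_le_left _ _
    have hε2 : ε * (1 + t * M₁) ≤ 1 := by
      have h3 : ε ≤ 1 / (1 + t * M₁) := min_le_right _ _
      calc ε * (1 + t * M₁) ≤ 1 / (1 + t * M₁) * (1 + t * M₁) :=
            mul_le_mul_of_nonneg_right h3 hden.le
        _ = 1 := by field_simp
    refine ⟨ε, hεp, ?_, ?_⟩
    · have h3 := h.cl_add (h.cl_smul hy.2.1 (sub_nonneg.mpr hε2))
        (h.cl_smul h1 (t := ε * t) (by positivity))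
      have h4 : (1 - ε * (1 + t * M₁)) • y + (ε * t) • (M₁ • y - z) = y - ε • (y + t • z) := by
        module
      rwa [h4] at h3
    · have h3 := h.cl_add (h.cl_smul hy.2.1 (t := 1 / 2 - ε) (by linarith))
        (h.cl_smul h2 htp.le)
      have h4 : (1 / 2 - ε) • y + t • (M₂ • y - -z)
          = (1 / 2 - ε + t * M₂) • y + t • z := by module
      rw [h4, htM] at h3
      have h5 : (1 / 2 - ε + 1 / 2) • y + t • z = y + t • z - ε • y := by module
      rwa [h5] at h3
  refine ⟨fun t ht => unt_smul h hy ht, fun z hz hzy => unt_of_le h hy hz hzy,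
    fun z hz hzC => unt_of_le h hy (L.add_mem hy.1 hz) (by simpa using hzC), ?_, hface, ?_⟩
  · intro z hz
    obtain ⟨M, hM, h1⟩ := hy.2.2 z hz
    refine ⟨1 / (2 * M), by positivity, ?_⟩
    refine unt_of_le h (unt_smul h hy (t := 1 / 2) (by norm_num))
      (L.sub_mem hy.1 (L.smul_mem _ hz)) ?_
    have h3 := h.cl_smul h1 (t := 1 / (2 * M)) (by positivity)
    have h4 : 1 / (2 * M) * M = 1 / 2 := by field_simp
    have h5 : (1 / (2 * M)) • (M • y - z) = (1 / (2 * M) * M) • y - (1 / (2 * M)) • z := by module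
    rw [h5, h4] at h3
    have h6 : y - (1 / (2 * M)) • z - (1 / 2 : ℝ) • y = (1 / 2 : ℝ) • y - (1 / (2 * M)) • z := by
      module
    rw [h6]; exact h3
  · intro hE z hz
    obtain ⟨t, ht, ε, hε, h1, h2⟩ := hface z hz
    have h3 : y + t • z ∈ closure C := by
      have h4 := h.cl_add h2 (h.cl_smul hy.2.1 hε.le)
      have h5 : y + t • z - ε • y + ε • y = y + t • z := by abel
      rwa [h5] at h4
    have h4 : ε⁻¹ • y - (y + t • z) ∈ closure C := by
      have h5 := h.cl_smul h1 (inv_pos.mpr hε).le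
      have h6 : ε⁻¹ • (y - ε • (y + t • z)) = ε⁻¹ • y - (y + t • z) := by
        rw [smul_sub, smul_smul, inv_mul_cancel₀ hε.ne', one_smul]
      rwa [h6] at h5
    obtain ⟨c, hc⟩ := hE _ h3 _ h4
    refine ⟨(c - 1) / t, ?_⟩
    have h5 : t • z = (c - 1) • y := by
      have h6 : t • z = (y + t • z) - y := by abel
      rw [h6, hc]; module
    have h6 : z = t⁻¹ • (t • z) := by rw [smul_smul, inv_mul_cancel₀ ht.ne', one_smul]
    rw [h6, h5, smul_smul]
    congr 1
    field_simp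

end Pool.Agent.PFJ.H76
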